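import Mathlib
import Pool.Agent.Lib.MP_55bc5f_an.Full.Final

/-!
# The meromorphic extension property is not open under deformations

There is a complex deformation `𝒟` over the unit disc (a proper holomorphic submersion with connected
compact fibres of dimension three) whose central fibre has the meromorphic extension property, for
all domains in all Stein manifolds and their envelopes of holomorphy, while no other fibre has it.

The fibre over `0` is the Nakamura manifold `Γ \ (ℂ* × ℂ²)`, the fibre over `t` is the quotient of
`{w ∈ ℂ³ : w₁ + t conj w₃ ≠ 0}` by a discrete group of affine maps isomorphic to `Γ`.

The extension theorem for the central fibre: meromorphic maps to it are holomorphic, the pull backs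
of its three invariant forms extend to the envelope `R`, the solutions of the corresponding system
form a covering of `R`, and the component of this covering which contains the given map has one
sheet, because the points in a fibre of a connected covering of the Stein manifold `R` are
separated by holomorphic functions (Hörmander's `L²` theorem on the covering minus a hypersurface),
whereas all holomorphic functions on this component come from `R`.
-/

set_option autoImplicit false

open Pool.Agent.Lib.MP_55bc5f_an

theorem Pool.Agent.Results.MP_55bc5f_an.NotOpenFull.result :
    ∃ 𝒟 : Deformation (ℂ × ℂ × ℂ) (ℂ × ℂ × ℂ × ℂ),
      MEP (𝒟.fibre ⟨0, Metric.mem_ball_self one_pos⟩) ∧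
      ∀ t : Metric.ball (0 : ℂ) 1, (t : ℂ) ≠ 0 → ¬ MEP (𝒟.fibre t) :=
  main_full
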